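import Mathlib
import Pool.Agent.Q249.LcmBinomial

/-!
Equality of lcm-type and Lucas binomial coefficients.
-/

namespace Pool.Agent.Results.MP_763eff_nt.EqualityCriterion

open Q249.LcmBinomial

/-- The Lucas sequence `U(P, Q)`. -/
def U (P Q : ℤ) : ℕ → ℤ
  | 0 => 0
  | 1 => 1
  | (n + 2) => P * U P Q (n + 1) - Q * U P Q n

/-- The `U`-binomial coefficient `U_n U_{n-1} ⋯ U_{n-k+1} / (U_1 U_2 ⋯ U_k)`. -/
def uBinom (P Q : ℤ) (n k : ℕ) : ℚ :=
  (∏ i ∈ Finset.Icc (n - k + 1) n, (U P Q i : ℚ)) / ∏ i ∈ Finset.Icc 1 k, (U P Q i : ℚ)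

/-- The lcm-analogue `lcm(U_n, …, U_{n-k+1}) / lcm(U_1, …, U_k)` (lcm's taken positive). -/
def lcmBinom (P Q : ℤ) (n k : ℕ) : ℚ :=
  ((Finset.Icc (n - k + 1) n).lcm (fun i => (U P Q i).natAbs) : ℕ) /
    ((Finset.Icc 1 k).lcm (fun i => (U P Q i).natAbs) : ℕ)

/-- `m` is the rank of apparition of `q` in `U(P, Q)`: the least `i ≥ 1` with `q ∣ U_i`. -/
def IsRankOfApparition (P Q : ℤ) (q m : ℕ) : Prop := IsLeast {i : ℕ | 1 ≤ i ∧ (q : ℤ) ∣ U P Q i} m

theorem U_zero (P Q : ℤ) : U P Q 0 = 0 := by unfold U; rfl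
theorem U_one (P Q : ℤ) : U P Q 1 = 1 := by unfold U; rfl
theorem U_add_two (P Q : ℤ) (n : ℕ) : U P Q (n + 2) = P * U P Q (n + 1) - Q * U P Q n := by
  rw [U]

theorem U_add (P Q : ℤ) (m n : ℕ) :
    U P Q (m + n + 1) = U P Q (m + 1) * U P Q (n + 1) - Q * U P Q m * U P Q n := by
  induction n using Nat.strong_induction_on generalizing m with
  | _ n ih =>
    rcases n with _ | _ | n
    · simp [U_zero, U_one]
    · have e2 : U P Q 2 = P := by
        have := U_add_two P Q 0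
        simpa [U_zero, U_one] using this
      have e := U_add_two P Q m
      rw [show m + (0 + 1) + 1 = m + 2 by ring, e, zero_add, e2, U_one]
      ring
    · have h1 := ih (n + 1) (by omega) m
      have h2 := ih n (by omega) m
      have e1 := U_add_two P Q (m + n + 1)
      have e2 := U_add_two P Q (n + 1)
      have e3 := U_add_two P Q n
      rw [show m + (n + 1 + 1) + 1 = m + n + 1 + 2 by ring, e1,
        show m + n + 1 + 1 = m + (n + 1) + 1 by ring, h1, h2]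
      rw [show n + 1 + 1 + 1 = n + 1 + 2 by ring, e2, show n + 1 + 1 = n + 2 by ring, e3]
      ring

theorem coprime_Q {P Q : ℤ} (h : IsCoprime P Q) (n : ℕ) : IsCoprime (U P Q (n + 1)) Q := by
  induction n with
  | zero => rw [zero_add, U_one]; exact isCoprime_one_left
  | succ n ih =>
    rw [show n + 1 + 1 = n + 2 by ring, U_add_two]
    have h1 : IsCoprime (P * U P Q (n + 1)) Q := h.mul_left ih
    have e : P * U P Q (n + 1) - Q * U P Q n = P * U P Q (n + 1) + Q * (-U P Q n) := by ring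
    rw [e]
    exact h1.add_mul_right_left (-U P Q n) |> fun h => by simpa [mul_comm] using h

theorem coprime_succ {P Q : ℤ} (h : IsCoprime P Q) (n : ℕ) :
    IsCoprime (U P Q n) (U P Q (n + 1)) := by
  induction n with
  | zero => rw [zero_add, U_one]; exact isCoprime_one_right
  | succ n ih =>
    rw [show n + 1 + 1 = n + 2 by ring, U_add_two]
    have h1 : IsCoprime (U P Q (n + 1)) (-(Q * U P Q n)) :=
      ((coprime_Q h n).mul_right ih.symm).neg_right
    have e : P * U P Q (n + 1) - Q * U P Q n = -(Q * U P Q n) + P * U P Q (n + 1) := by ring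
    rw [e]
    exact h1.add_mul_right_right P

theorem gcd_add {P Q : ℤ} (h : IsCoprime P Q) (m n : ℕ) (hm : 0 < m) :
    Nat.gcd (U P Q m).natAbs (U P Q (m + n)).natAbs =
      Nat.gcd (U P Q m).natAbs (U P Q n).natAbs := by
  obtain ⟨m, rfl⟩ : ∃ m', m = m' + 1 := ⟨m - 1, by omega⟩
  have e : U P Q (m + 1 + n) = U P Q (m + 1) * U P Q (n + 1) - Q * U P Q m * U P Q n := by
    rw [show m + 1 + n = m + n + 1 by ring, U_add]
  have hc : IsCoprime (U P Q (m + 1)) (Q * U P Q m) :=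
    (coprime_Q h m).mul_right (coprime_succ h m).symm
  apply Nat.dvd_antisymm
  · apply Nat.dvd_gcd (Nat.gcd_dvd_left _ _)
    rw [← Int.natCast_dvd]
    have h1 : ((Nat.gcd (U P Q (m + 1)).natAbs (U P Q (m + 1 + n)).natAbs : ℕ) : ℤ) ∣
        U P Q (m + 1) := Int.natCast_dvd.2 (Nat.gcd_dvd_left _ _)
    have h2 : ((Nat.gcd (U P Q (m + 1)).natAbs (U P Q (m + 1 + n)).natAbs : ℕ) : ℤ) ∣
        U P Q (m + 1 + n) := Int.natCast_dvd.2 (Nat.gcd_dvd_right _ _)
    have h3 : ((Nat.gcd (U P Q (m + 1)).natAbs (U P Q (m + 1 + n)).natAbs : ℕ) : ℤ) ∣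
        Q * U P Q m * U P Q n := by
      have := dvd_sub (h1.mul_right (U P Q (n + 1))) h2
      have e' : U P Q (m + 1) * U P Q (n + 1) - U P Q (m + 1 + n) = Q * U P Q m * U P Q n := by
        rw [e]; ring
      rwa [e'] at this
    exact (hc.of_isCoprime_of_dvd_left h1).dvd_of_dvd_mul_left h3
  · apply Nat.dvd_gcd (Nat.gcd_dvd_left _ _)
    rw [← Int.natCast_dvd]
    have h1 : ((Nat.gcd (U P Q (m + 1)).natAbs (U P Q n).natAbs : ℕ) : ℤ) ∣
        U P Q (m + 1) := Int.natCast_dvd.2 (Nat.gcd_dvd_left _ _)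
    have h2 : ((Nat.gcd (U P Q (m + 1)).natAbs (U P Q n).natAbs : ℕ) : ℤ) ∣
        U P Q n := Int.natCast_dvd.2 (Nat.gcd_dvd_right _ _)
    rw [e]
    exact dvd_sub (h1.mul_right _) (h2.mul_left _)

theorem gcd_U {P Q : ℤ} (h : IsCoprime P Q) (m n : ℕ) :
    Nat.gcd (U P Q m).natAbs (U P Q n).natAbs = (U P Q (Nat.gcd m n)).natAbs := by
  induction hs : m + n using Nat.strong_induction_on generalizing m n with
  | _ s ih =>
    rcases Nat.eq_zero_or_pos m with rfl | hm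
    · simp [U_zero]
    rcases Nat.eq_zero_or_pos n with rfl | hn
    · simp [U_zero]
    rcases Nat.le_total m n with hle | hle
    · obtain ⟨t, rfl⟩ := Nat.exists_eq_add_of_le hle
      rw [gcd_add h m t hm, ih (m + t) (by omega) m t rfl, Nat.gcd_self_add_right]
    · obtain ⟨t, rfl⟩ := Nat.exists_eq_add_of_le hle
      rw [Nat.gcd_comm, gcd_add h n t hn, ih (n + t) (by omega) n t rfl,
        Nat.gcd_self_add_left, Nat.gcd_comm]

/-- Nonvanishing from the assumption on the roots. -/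
theorem U_ne_zero {P Q : ℤ} (hΔ : P ^ 2 - 4 * Q ≠ 0)
    (hroot : ∀ α β : ℂ, α + β = P → α * β = Q → ∀ j : ℕ, 0 < j → α ^ j ≠ β ^ j)
    (n : ℕ) (hn : 0 < n) : U P Q n ≠ 0 := by
  obtain ⟨s, hs⟩ : ∃ s : ℂ, s ^ 2 = (P : ℂ) ^ 2 - 4 * Q := by
    obtain ⟨s, hs⟩ := IsSquare.sq ((IsAlgClosed.exists_pow_nat_eq ((P : ℂ) ^ 2 - 4 * Q) (n := 2)
      (by norm_num)).choose)
    exact ⟨_, (IsAlgClosed.exists_pow_nat_eq ((P : ℂ) ^ 2 - 4 * Q) (n := 2)
      (by norm_num)).choose_spec⟩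
  have hs0 : s ≠ 0 := by
    rintro rfl
    apply hΔ
    have : ((P ^ 2 - 4 * Q : ℤ) : ℂ) = 0 := by push_cast; rw [← hs]; ring
    exact_mod_cast this
  set α : ℂ := (P + s) / 2 with hα
  set β : ℂ := (P - s) / 2 with hβ
  have h1 : α + β = P := by rw [hα, hβ]; ring
  have h2 : α * β = Q := by
    rw [hα, hβ]
    have : (P + s) / 2 * ((P - s) / 2) = ((P : ℂ) ^ 2 - s ^ 2) / 4 := by ring
    rw [this, hs]; ring
  have hrec : ∀ i : ℕ, (α - β) * (U P Q i : ℂ) = α ^ i - β ^ i := by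
    intro i
    induction i using Nat.strong_induction_on with
    | _ i ih =>
      rcases i with _ | _ | i
      · simp [U_zero]
      · simp [U_one]
      · have e1 := ih i (by omega)
        have e2 := ih (i + 1) (by omega)
        rw [show i + 1 + 1 = i + 2 by ring, U_add_two]
        push_cast
        have : (α - β) * ((P : ℂ) * (U P Q (i + 1) : ℂ) - Q * (U P Q i : ℂ)) =
            P * ((α - β) * (U P Q (i + 1) : ℂ)) - Q * ((α - β) * (U P Q i : ℂ)) := by ring
        rw [this, e1, e2, ← h1, ← h2]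
        ring
  intro h0
  have := hrec n
  rw [h0, Int.cast_zero, mul_zero] at this
  exact hroot α β h1 h2 n hn (sub_eq_zero.1 this.symm)

theorem Icc_eq (a b : ℕ) : Finset.Icc (a + 1) b = Finset.Ioc a b := by
  ext i; simp only [Finset.mem_Icc, Finset.mem_Ioc]; omega

theorem lcm_pos' {P Q : ℤ} (hU : ∀ i, 0 < i → U P Q i ≠ 0) (s : Finset ℕ) (hs : ∀ i ∈ s, 0 < i) :
    0 < s.lcm (fun i => (U P Q i).natAbs) := by
  apply Nat.pos_of_ne_zero
  exact lcm_ne_zero (u := fun i => (U P Q i).natAbs)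
    (fun i hi => Int.natAbs_ne_zero.2 (hU i hi)) s hs

/-- The absolute value of the `U`-binomial coefficient agrees with the lcm-analogue iff the product
identity in the natural numbers holds. -/
theorem abs_eq_iff {P Q : ℤ} (hU : ∀ i, 0 < i → U P Q i ≠ 0) (n k : ℕ) :
    lcmBinom P Q n k = |uBinom P Q n k| ↔
      (∏ i ∈ Finset.Ioc (n - k) n, (U P Q i).natAbs) *
          (Finset.Ioc 0 k).lcm (fun i => (U P Q i).natAbs) =
        (∏ i ∈ Finset.Ioc 0 k, (U P Q i).natAbs) *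
          (Finset.Ioc (n - k) n).lcm (fun i => (U P Q i).natAbs) := by
  unfold lcmBinom uBinom
  rw [Icc_eq, show (1 : ℕ) = 0 + 1 by rfl, Icc_eq, abs_div, Finset.abs_prod, Finset.abs_prod]
  have e : ∀ i, |(U P Q i : ℚ)| = (((U P Q i).natAbs : ℕ) : ℚ) := by
    intro i
    rw [Nat.cast_natAbs, Int.cast_abs]
  simp only [e]
  have h1 : (0 : ℚ) < ((Finset.Ioc 0 k).lcm (fun i => (U P Q i).natAbs) : ℕ) := by
    exact_mod_cast lcm_pos' hU _ fun i hi => (Finset.mem_Ioc.1 hi).1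
  have h2 : (0 : ℚ) < ∏ i ∈ Finset.Ioc 0 k, (((U P Q i).natAbs : ℕ) : ℚ) := by
    apply Finset.prod_pos
    intro i hi
    have := Int.natAbs_pos.2 (hU i (Finset.mem_Ioc.1 hi).1)
    exact_mod_cast this
  rw [div_eq_div_iff h1.ne' h2.ne']
  constructor
  · intro h
    have h3 : (((Finset.Ioc (n - k) n).lcm (fun i => (U P Q i).natAbs) *
        ∏ i ∈ Finset.Ioc 0 k, (U P Q i).natAbs : ℕ) : ℚ) =
        (((∏ i ∈ Finset.Ioc (n - k) n, (U P Q i).natAbs) *
          (Finset.Ioc 0 k).lcm (fun i => (U P Q i).natAbs) : ℕ) : ℚ) := by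
      push_cast
      exact h
    have h4 := Nat.cast_injective h3
    rw [← h4, mul_comm]
  · intro h
    have h3 : (((∏ i ∈ Finset.Ioc (n - k) n, (U P Q i).natAbs) *
          (Finset.Ioc 0 k).lcm (fun i => (U P Q i).natAbs) : ℕ) : ℚ) =
        (((∏ i ∈ Finset.Ioc 0 k, (U P Q i).natAbs) *
          (Finset.Ioc (n - k) n).lcm (fun i => (U P Q i).natAbs) : ℕ) : ℚ) := by rw [h]
    push_cast at h3
    rw [h3, mul_comm]

theorem isRank_iff (P Q : ℤ) (q m : ℕ) :
    IsRankOfApparition P Q q m ↔ IsRank (fun i => (U P Q i).natAbs) q m := by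
  unfold IsRankOfApparition IsRank IsLeast lowerBounds
  simp only [Set.mem_ofPred_eq]
  constructor
  · rintro ⟨⟨h1, h2⟩, h3⟩
    refine ⟨h1, Int.natCast_dvd.1 h2, fun i hi him hq => ?_⟩
    have := h3 ⟨hi, Int.natCast_dvd.2 hq⟩
    omega
  · rintro ⟨h1, h2, h3⟩
    refine ⟨⟨h1, Int.natCast_dvd.2 h2⟩, fun i hi => ?_⟩
    by_contra hcon
    exact h3 i hi.1 (by omega) (Int.natCast_dvd.1 hi.2)

/-- Signs for `P > 0`, `Δ > 0`. -/
theorem U_pos {P Q : ℤ} (hP : 0 < P) (hΔ : 0 < P ^ 2 - 4 * Q) (n : ℕ) :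
    0 < U P Q (n + 1) ∧ P * U P Q (n + 1) ≤ 2 * U P Q (n + 2) := by
  induction n with
  | zero =>
    have e2 : U P Q 2 = P := by
      have := U_add_two P Q 0
      simpa [U_zero, U_one] using this
    simp only [zero_add, U_one, e2]
    constructor
    · exact one_pos
    · linarith
  | succ n ih =>
    obtain ⟨h1, h2⟩ := ih
    have h3 : 0 < U P Q (n + 2) := by
      have : 0 < P * U P Q (n + 1) := mul_pos hP h1
      linarith
    refine ⟨h3, ?_⟩
    rw [show n + 1 + 2 = (n + 1) + 2 by ring, U_add_two P Q (n + 1),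
      show n + 1 + 1 = n + 2 by ring]
    -- P U_{n+2} ≤ 2 P U_{n+2} - 2 Q U_{n+1}
    have h4 : P * (P * U P Q (n + 1)) ≤ P * (2 * U P Q (n + 2)) :=
      mul_le_mul_of_nonneg_left h2 hP.le
    have h5 : 4 * Q * U P Q (n + 1) ≤ P ^ 2 * U P Q (n + 1) :=
      mul_le_mul_of_nonneg_right (by linarith) h1.le
    nlinarith

theorem U_neg (P Q : ℤ) (n : ℕ) : U (-P) Q (n + 1) = (-1) ^ n * U P Q (n + 1) := by
  induction n using Nat.strong_induction_on with
  | _ n ih =>
    rcases n with _ | _ | n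
    · simp [U_one]
    · have e2 : ∀ P : ℤ, U P Q 2 = P := by
        intro P
        have := U_add_two P Q 0
        simpa [U_zero, U_one] using this
      simp only [zero_add, show 1 + 1 = 2 by rfl, e2]
      ring
    · have h1 := ih (n + 1) (by omega)
      have h2 := ih n (by omega)
      rw [show n + 1 + 1 + 1 = (n + 1) + 2 by ring, U_add_two (-P) Q (n + 1),
        U_add_two P Q (n + 1), h1, h2]
      ring

/-- The sign of the `U`-binomial coefficient when `Δ > 0`. -/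
theorem uBinom_pos_iff {P Q : ℤ} (hP : P ≠ 0) (hΔ : 0 < P ^ 2 - 4 * Q) (n k : ℕ) (hkn : k ≤ n) :
    0 < uBinom P Q n k ↔ 0 < P ∨ Even (k * (n - k)) := by
  have hpos : ∀ P : ℤ, 0 < P → 0 < P ^ 2 - 4 * Q → ∀ s : Finset ℕ, (∀ i ∈ s, 0 < i) →
      0 < ∏ i ∈ s, (U P Q i : ℚ) := by
    intro P hP hΔ s hs
    apply Finset.prod_pos
    intro i hi
    obtain ⟨j, rfl⟩ : ∃ j, i = j + 1 := ⟨i - 1, by have := hs i hi; omega⟩
    exact_mod_cast (U_pos hP hΔ j).1
  have hI : ∀ i ∈ Finset.Icc (n - k + 1) n, 0 < i := fun i hi => by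
    rw [Finset.mem_Icc] at hi; omega
  have hJ : ∀ i ∈ Finset.Icc 1 k, 0 < i := fun i hi => (Finset.mem_Icc.1 hi).1
  rcases lt_or_gt_of_ne hP with hneg | hpos'
  · -- `P < 0`
    have hP' : 0 < -P := by linarith
    have hΔ' : 0 < (-P) ^ 2 - 4 * Q := by rw [neg_sq]; exact hΔ
    have hs : ∀ i, 0 < i → (U P Q i : ℚ) = (-1) ^ (i + 1) * (U (-P) Q i : ℚ) := by
      intro i hi
      obtain ⟨j, rfl⟩ : ∃ j, i = j + 1 := ⟨i - 1, by omega⟩
      have := U_neg (-P) Q j
      rw [neg_neg] at this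
      rw [this]
      push_cast
      rw [pow_add, pow_add]
      norm_num
    have hprod : ∀ s : Finset ℕ, (∀ i ∈ s, 0 < i) → ∏ i ∈ s, (U P Q i : ℚ) =
        (-1) ^ (∑ i ∈ s, (i + 1)) * ∏ i ∈ s, (U (-P) Q i : ℚ) := by
      intro s hs'
      rw [Finset.prod_congr rfl fun i hi => hs i (hs' i hi), Finset.prod_mul_distrib,
        Finset.prod_pow_eq_pow_sum]
    have hsum : ∑ i ∈ Finset.Icc (n - k + 1) n, (i + 1) =
        ∑ i ∈ Finset.Icc 1 k, (i + 1) + k * (n - k) := by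
      have h1 : Finset.Icc (n - k + 1) n = (Finset.Icc 1 k).image (fun i => i + (n - k)) := by
        rw [Finset.image_add_right_Icc]
        congr 1 <;> omega
      rw [h1, Finset.sum_image (by intro a _ b _ h; simpa using h)]
      have : ∀ i ∈ Finset.Icc 1 k, i + (n - k) + 1 = (i + 1) + (n - k) := fun i _ => by ring
      rw [Finset.sum_congr rfl this, Finset.sum_add_distrib, Finset.sum_const, Nat.card_Icc,
        smul_eq_mul]
      simp
    have h1 : uBinom P Q n k = (-1) ^ (k * (n - k)) * uBinom (-P) Q n k := by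
      unfold uBinom
      rw [hprod _ hI, hprod _ hJ, hsum, pow_add]
      have hne : ((-1 : ℚ)) ^ (∑ i ∈ Finset.Icc 1 k, (i + 1)) ≠ 0 := pow_ne_zero _ (by norm_num)
      have hne' : ∏ i ∈ Finset.Icc 1 k, (U (-P) Q i : ℚ) ≠ 0 := (hpos _ hP' hΔ' _ hJ).ne'
      field_simp
    have h2 : 0 < uBinom (-P) Q n k := div_pos (hpos _ hP' hΔ' _ hI) (hpos _ hP' hΔ' _ hJ)
    rw [h1]
    rcases Nat.even_or_odd (k * (n - k)) with he | ho
    · rw [he.neg_one_pow, one_mul]
      exact ⟨fun _ => Or.inr he, fun _ => h2⟩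
    · rw [ho.neg_one_pow]
      constructor
      · intro h; linarith
      · rintro (h | h)
        · linarith
        · exact absurd h (Nat.not_even_iff_odd.2 ho)
  · exact ⟨fun _ => Or.inl hpos', fun _ => div_pos (hpos _ hpos' hΔ _ hI) (hpos _ hpos' hΔ _ hJ)⟩

/-- The pairs `(k, n)` with equality: the `U`-binomial coefficient must be positive, and
`k mod m ≤ n mod m` must hold for every `m ≤ k` which is the rank of apparition of a prime power
(second form: for every `m` with `2 ≤ m ≤ k` such that `U_m` does not divide the lcm of the `U_d`, `d`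
running over the proper divisors of `m`).  When `Δ > 0` the sign condition is made explicit. -/
theorem result (P Q : ℤ) (hPQ : P * Q ≠ 0) (hΔ : P ^ 2 - 4 * Q ≠ 0) (hcop : Int.gcd P Q = 1)
    (hroot : ∀ α β : ℂ, α + β = P → α * β = Q → ∀ j : ℕ, 0 < j → α ^ j ≠ β ^ j)
    (n k : ℕ) (_hk : 1 ≤ k) (hkn : k ≤ n) :
    (lcmBinom P Q n k = uBinom P Q n k ↔ 0 < uBinom P Q n k ∧
      ∀ m : ℕ, 2 ≤ m → m ≤ k →
        (∃ p e : ℕ, p.Prime ∧ 1 ≤ e ∧ IsRankOfApparition P Q (p ^ e) m) → k % m ≤ n % m) ∧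
    (lcmBinom P Q n k = uBinom P Q n k ↔ 0 < uBinom P Q n k ∧
      ∀ m : ℕ, 2 ≤ m → m ≤ k →
        ¬ (U P Q m).natAbs ∣ m.properDivisors.lcm (fun d => (U P Q d).natAbs) →
          k % m ≤ n % m) ∧
    (0 < P ^ 2 - 4 * Q → (0 < uBinom P Q n k ↔ 0 < P ∨ Even (k * (n - k)))) := by
  have hc : IsCoprime P Q := Int.isCoprime_iff_gcd_eq_one.2 hcop
  have hU : ∀ i, 0 < i → U P Q i ≠ 0 := U_ne_zero hΔ hroot
  set u : ℕ → ℕ := fun i => (U P Q i).natAbs with hu
  have hu0 : ∀ i, 0 < i → u i ≠ 0 := fun i hi => Int.natAbs_ne_zero.2 (hU i hi)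
  have hgcd : ∀ i j, Nat.gcd (u i) (u j) = u (Nat.gcd i j) := fun i j => gcd_U hc i j
  have hmain := prod_mul_lcm_eq_iff hu0 hgcd (n - k) k
  rw [Nat.sub_add_cancel hkn] at hmain
  have habs := abs_eq_iff hU n k
  -- positivity of the lcm side
  have hlpos : 0 < lcmBinom P Q n k := by
    unfold lcmBinom
    apply div_pos
    · have := lcm_pos' hU (Finset.Icc (n - k + 1) n) fun i hi => by
        rw [Finset.mem_Icc] at hi; omega
      exact_mod_cast this
    · have := lcm_pos' hU (Finset.Icc 1 k) fun i hi => (Finset.mem_Icc.1 hi).1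
      exact_mod_cast this
  have hsplit : lcmBinom P Q n k = uBinom P Q n k ↔
      0 < uBinom P Q n k ∧ lcmBinom P Q n k = |uBinom P Q n k| := by
    constructor
    · intro h
      have h1 : 0 < uBinom P Q n k := h ▸ hlpos
      exact ⟨h1, by rw [abs_of_pos h1]; exact h⟩
    · rintro ⟨h1, h2⟩
      rw [abs_of_pos h1] at h2
      exact h2
  have hne : ∀ p e : ℕ, p.Prime → 1 ≤ e → ¬ IsRank u (p ^ e) 1 := by
    intro p e hp he h
    have h1 := h.2.1
    rw [hu] at h1
    simp only [U_one, Int.natAbs_one] at h1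
    have h2 := Nat.le_of_dvd one_pos h1
    have h3 := Nat.one_lt_pow (by omega : e ≠ 0) hp.one_lt
    omega
  have hform1 : lcmBinom P Q n k = uBinom P Q n k ↔ 0 < uBinom P Q n k ∧
      ∀ m : ℕ, 2 ≤ m → m ≤ k →
        (∃ p e : ℕ, p.Prime ∧ 1 ≤ e ∧ IsRankOfApparition P Q (p ^ e) m) → k % m ≤ n % m := by
    rw [hsplit, habs, hmain]
    apply and_congr_right
    intro _
    constructor
    · rintro h m _ hmk ⟨p, e, hp, he, hr⟩
      exact h p e m hp he ((isRank_iff P Q _ _).1 hr) hmk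
    · intro h p e m hp he hr hmk
      have hm2 : 2 ≤ m := by
        have h1 := hr.1
        have h2 : m ≠ 1 := by
          rintro rfl
          exact hne p e hp he hr
        omega
      exact h m hm2 hmk ⟨p, e, hp, he, (isRank_iff P Q _ _).2 hr⟩
  refine ⟨hform1, ?_, fun hΔ' => uBinom_pos_iff (left_ne_zero_of_mul hPQ) hΔ' n k hkn⟩
  rw [hform1]
  apply and_congr_right
  intro _
  apply forall_congr'
  intro m
  apply imp_congr_right
  intro hm2
  apply imp_congr_right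
  intro _
  have h1 := isNew_iff hu0 hgcd m (by omega)
  unfold IsNew at h1
  have h2 : (∃ p e : ℕ, p.Prime ∧ 1 ≤ e ∧ IsRankOfApparition P Q (p ^ e) m) ↔
      ∃ p e : ℕ, p.Prime ∧ 0 < e ∧ IsRank u (p ^ e) m := by
    simp only [isRank_iff]
    rfl
  rw [h2, ← h1]

end Pool.Agent.Results.MP_763eff_nt.EqualityCriterion
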